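import Pool.Agent.Helper79.HI.Check2

/-!
# Closed families and cores
-/

namespace Pool.Agent.Helper79.HI

open Finset Pool.Agent.Helper79.HX Pool.Agent.Helper79.HG Pool.Agent.Helper79.HH

/-- large faces 7; 6 and more hexagons -/
def f7L : List Tr :=
  [(1, 2, 11), (14, 16, 19), (13, 14, 19), (13, 18, 19), (17, 18, 19), (16, 17, 19), (15, 17,
   18), (1, 13, 18), (1, 15, 18), (5, 15, 17), (5, 16, 17), (4, 5, 16), (4, 14, 16), (0, 5, 15),
   (0, 1, 15), (3, 13, 14), (3, 4, 14), (4, 5, 6), (0, 5, 6), (1, 2, 13), (2, 3, 13), (3, 4, 7),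
   (4, 6, 7), (3, 7, 8), (2, 3, 8), (0, 6, 9), (6, 7, 9), (7, 9, 10), (7, 8, 10), (0, 1, 12),
   (0, 9, 12), (9, 10, 12), (1, 11, 12), (10, 11, 12), (8, 10, 11), (2, 8, 11)]

theorem f7_ck : ckF 20 f7L (List.replicate 13 5 ++ List.replicate 6 6 ++ [7]) = true := by
  decide +kernel

theorem f7 (k : ℕ) : Good (([7] : List ℕ) : Multiset ℕ) (6 + k) := good_fam f7_ck k

/-- large faces 8; 6 and more hexagons -/
def f8L : List Tr :=
  [(0, 5, 13), (0, 9, 12), (0, 1, 12), (1, 11, 12), (10, 11, 12), (9, 10, 12), (8, 10, 11), (1,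
   2, 11), (2, 8, 11), (7, 8, 10), (7, 9, 10), (6, 7, 9), (0, 6, 9), (3, 7, 8), (2, 3, 8), (3,
   4, 7), (4, 6, 7), (1, 2, 20), (2, 3, 20), (0, 1, 18), (1, 18, 20), (0, 5, 6), (4, 5, 6), (3,
   19, 20), (3, 4, 19), (4, 14, 19), (4, 5, 14), (17, 19, 20), (17, 18, 20), (15, 17, 19), (14,
   15, 19), (0, 16, 18), (16, 17, 18), (15, 16, 17), (0, 13, 16), (13, 15, 16), (13, 14, 15),
   (5, 13, 14)]

theorem f8_ck : ckF 21 f8L (List.replicate 14 5 ++ List.replicate 6 6 ++ [8]) = true := by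
  decide +kernel

theorem f8 (k : ℕ) : Good (([8] : List ℕ) : Multiset ℕ) (6 + k) := good_fam f8_ck k

/-- large faces 9; 6 and more hexagons -/
def f9L : List Tr :=
  [(0, 5, 13), (1, 2, 11), (2, 8, 11), (8, 10, 11), (10, 11, 12), (1, 11, 12), (9, 10, 12), (7,
   8, 10), (7, 9, 10), (0, 9, 12), (0, 1, 12), (0, 1, 21), (1, 2, 21), (0, 6, 9), (6, 7, 9), (2,
   3, 8), (3, 7, 8), (3, 4, 7), (4, 6, 7), (2, 3, 20), (2, 20, 21), (0, 18, 21), (18, 20, 21),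
   (0, 5, 6), (4, 5, 6), (3, 19, 20), (3, 4, 19), (4, 14, 19), (4, 5, 14), (17, 19, 20), (17,
   18, 20), (15, 17, 19), (14, 15, 19), (0, 16, 18), (16, 17, 18), (15, 16, 17), (0, 13, 16),
   (13, 15, 16), (13, 14, 15), (5, 13, 14)]

theorem f9_ck : ckF 22 f9L (List.replicate 15 5 ++ List.replicate 6 6 ++ [9]) = true := by
  decide +kernel

theorem f9 (k : ℕ) : Good (([9] : List ℕ) : Multiset ℕ) (6 + k) := good_fam f9_ck k

/-- large faces 7, 7; 6 and more hexagons -/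
def f77L : List Tr :=
  [(5, 13, 14), (2, 8, 11), (1, 2, 11), (1, 11, 12), (10, 11, 12), (8, 10, 11), (9, 10, 12), (0,
   1, 12), (0, 9, 12), (7, 9, 10), (7, 8, 10), (3, 7, 8), (2, 3, 8), (6, 7, 9), (0, 6, 9), (4,
   6, 7), (3, 4, 7), (2, 3, 21), (3, 4, 21), (0, 5, 6), (4, 5, 6), (4, 5, 19), (4, 19, 21), (0,
   5, 14), (0, 1, 14), (1, 2, 20), (2, 20, 21), (1, 15, 20), (1, 14, 15), (18, 20, 21), (18, 19,
   21), (16, 18, 20), (15, 16, 20), (5, 17, 19), (17, 18, 19), (16, 17, 18), (5, 13, 17), (13,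
   16, 17), (13, 15, 16), (13, 14, 15)]

theorem f77_ck : ckF 22 f77L (List.replicate 14 5 ++ List.replicate 6 6 ++ [7, 7]) = true := by
  decide +kernel

theorem f77 (k : ℕ) : Good (([7, 7] : List ℕ) : Multiset ℕ) (6 + k) := good_fam f77_ck k

/-- large faces 7, 8; 6 and more hexagons -/
def f78L : List Tr :=
  [(3, 13, 14), (0, 9, 12), (0, 1, 12), (1, 11, 12), (10, 11, 12), (9, 10, 12), (8, 10, 11), (1,
   2, 11), (2, 8, 11), (7, 8, 10), (7, 9, 10), (6, 7, 9), (0, 6, 9), (3, 7, 8), (2, 3, 8), (0,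
   1, 5), (0, 5, 6), (4, 6, 7), (3, 4, 7), (4, 5, 6), (1, 5, 22), (1, 2, 22), (4, 5, 21), (5,
   21, 22), (2, 3, 14), (2, 14, 22), (14, 15, 22), (20, 21, 22), (15, 20, 22), (3, 4, 19), (4,
   19, 21), (18, 19, 21), (18, 20, 21), (16, 18, 20), (15, 16, 20), (3, 17, 19), (17, 18, 19),
   (16, 17, 18), (3, 13, 17), (13, 16, 17), (13, 15, 16), (13, 14, 15)]

theorem f78_ck : ckF 23 f78L (List.replicate 15 5 ++ List.replicate 6 6 ++ [7, 8]) = true := by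
  decide +kernel

theorem f78 (k : ℕ) : Good (([7, 8] : List ℕ) : Multiset ℕ) (6 + k) := good_fam f78_ck k

/-- large faces 7, 9; 6 and more hexagons -/
def f79L : List Tr :=
  [(5, 13, 14), (8, 10, 11), (7, 8, 10), (7, 9, 10), (9, 10, 12), (10, 11, 12), (0, 9, 12), (6,
   7, 9), (0, 6, 9), (0, 1, 12), (1, 11, 12), (1, 2, 11), (2, 8, 11), (0, 1, 5), (0, 5, 6), (3,
   7, 8), (2, 3, 8), (1, 2, 22), (1, 5, 22), (2, 3, 22), (3, 4, 7), (4, 6, 7), (4, 5, 6), (3, 4,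
   23), (3, 21, 22), (3, 21, 23), (4, 5, 14), (4, 14, 23), (14, 15, 23), (20, 21, 23), (15, 20,
   23), (5, 19, 22), (19, 21, 22), (18, 19, 21), (18, 20, 21), (16, 18, 20), (15, 16, 20), (5,
   17, 19), (17, 18, 19), (16, 17, 18), (5, 13, 17), (13, 16, 17), (13, 15, 16), (13, 14, 15)]

theorem f79_ck : ckF 24 f79L (List.replicate 16 5 ++ List.replicate 6 6 ++ [7, 9]) = true := by
  decide +kernel

theorem f79 (k : ℕ) : Good (([7, 9] : List ℕ) : Multiset ℕ) (6 + k) := good_fam f79_ck k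

end Pool.Agent.Helper79.HI
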