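import Pool.Agent.Helper79.HI.Check2

/-!
# Closed families and cores
-/

namespace Pool.Agent.Helper79.HI

open Finset Pool.Agent.Helper79.HX Pool.Agent.Helper79.HG Pool.Agent.Helper79.HH

/-- large faces 7, 10; 6 and more hexagons -/
def f7AL : List Tr :=
  [(2, 8, 11), (14, 21, 24), (14, 17, 24), (17, 23, 24), (22, 23, 24), (21, 22, 24), (20, 22,
   23), (16, 17, 23), (16, 20, 23), (19, 20, 22), (19, 21, 22), (15, 19, 21), (14, 15, 21), (18,
   19, 20), (16, 18, 20), (15, 18, 19), (13, 16, 18), (13, 15, 18), (2, 16, 17), (2, 14, 17),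
   (2, 13, 16), (3, 14, 15), (3, 13, 15), (2, 3, 14), (2, 4, 13), (3, 4, 13), (2, 3, 8), (3, 4,
   7), (3, 7, 8), (7, 8, 10), (7, 9, 10), (4, 6, 7), (6, 7, 9), (2, 4, 5), (4, 5, 6), (0, 5, 6),
   (0, 6, 9), (0, 9, 12), (9, 10, 12), (1, 2, 5), (0, 1, 5), (0, 1, 12), (1, 2, 11), (1, 11,
   12), (10, 11, 12), (8, 10, 11)]

theorem f7A_ck : ckF 25 f7AL (List.replicate 17 5 ++ List.replicate 6 6 ++ [7, 10]) = true := by
  decide +kernel

theorem f7A (k : ℕ) : Good (([7, 10] : List ℕ) : Multiset ℕ) (6 + k) := good_fam f7A_ck k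

/-- large faces 8, 8; 6 and more hexagons -/
def f88L : List Tr :=
  [(0, 1, 13), (18, 20, 23), (15, 18, 23), (15, 22, 23), (21, 22, 23), (20, 21, 23), (19, 21,
   22), (5, 15, 22), (5, 19, 22), (17, 19, 21), (17, 20, 21), (16, 17, 20), (16, 18, 20), (4,
   17, 19), (4, 5, 19), (14, 15, 18), (14, 16, 18), (3, 16, 17), (3, 4, 17), (3, 14, 16), (0,
   14, 15), (0, 5, 15), (4, 5, 6), (0, 5, 6), (3, 4, 7), (4, 6, 7), (0, 13, 14), (3, 13, 14),
   (2, 3, 13), (3, 7, 8), (2, 3, 8), (0, 6, 9), (6, 7, 9), (7, 9, 10), (7, 8, 10), (8, 10, 11),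
   (2, 8, 11), (0, 9, 12), (9, 10, 12), (10, 11, 12), (0, 1, 12), (1, 11, 12), (1, 2, 11), (1,
   2, 13)]

theorem f88_ck : ckF 24 f88L (List.replicate 16 5 ++ List.replicate 6 6 ++ [8, 8]) = true := by
  decide +kernel

theorem f88 (k : ℕ) : Good (([8, 8] : List ℕ) : Multiset ℕ) (6 + k) := good_fam f88_ck k

/-- large faces 8, 9; 6 and more hexagons -/
def f89L : List Tr :=
  [(2, 8, 11), (14, 21, 24), (14, 17, 24), (17, 23, 24), (22, 23, 24), (21, 22, 24), (20, 22,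
   23), (16, 17, 23), (16, 20, 23), (19, 20, 22), (19, 21, 22), (15, 19, 21), (14, 15, 21), (18,
   19, 20), (16, 18, 20), (15, 18, 19), (3, 16, 18), (3, 15, 18), (13, 16, 17), (13, 14, 17),
   (3, 13, 16), (2, 14, 15), (2, 3, 15), (2, 13, 14), (3, 4, 13), (2, 4, 13), (2, 3, 8), (3, 4,
   7), (3, 7, 8), (7, 8, 10), (7, 9, 10), (4, 6, 7), (6, 7, 9), (2, 4, 5), (4, 5, 6), (0, 5, 6),
   (0, 6, 9), (0, 9, 12), (9, 10, 12), (1, 2, 5), (0, 1, 5), (0, 1, 12), (1, 2, 11), (1, 11,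
   12), (10, 11, 12), (8, 10, 11)]

theorem f89_ck : ckF 25 f89L (List.replicate 17 5 ++ List.replicate 6 6 ++ [8, 9]) = true := by
  decide +kernel

theorem f89 (k : ℕ) : Good (([8, 9] : List ℕ) : Multiset ℕ) (6 + k) := good_fam f89_ck k

/-- large faces 8, 10; 6 and more hexagons -/
def f8AL : List Tr :=
  [(3, 13, 14), (1, 2, 11), (2, 8, 11), (8, 10, 11), (10, 11, 12), (1, 11, 12), (9, 10, 12), (7,
   8, 10), (7, 9, 10), (0, 9, 12), (0, 1, 12), (0, 1, 25), (1, 2, 25), (0, 6, 9), (6, 7, 9), (0,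
   5, 6), (0, 5, 25), (2, 3, 8), (3, 7, 8), (2, 24, 25), (5, 24, 25), (2, 3, 24), (3, 4, 7), (4,
   6, 7), (4, 5, 6), (4, 5, 23), (5, 23, 24), (3, 4, 22), (4, 22, 23), (3, 14, 24), (14, 23,
   24), (14, 15, 23), (15, 20, 23), (21, 22, 23), (20, 21, 23), (3, 19, 22), (19, 21, 22), (18,
   19, 21), (18, 20, 21), (16, 18, 20), (15, 16, 20), (3, 17, 19), (17, 18, 19), (16, 17, 18),
   (3, 13, 17), (13, 16, 17), (13, 15, 16), (13, 14, 15)]

theorem f8A_ck : ckF 26 f8AL (List.replicate 18 5 ++ List.replicate 6 6 ++ [8, 10]) = true := by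
  decide +kernel

theorem f8A (k : ℕ) : Good (([8, 10] : List ℕ) : Multiset ℕ) (6 + k) := good_fam f8A_ck k

/-- large faces 7, 7, 7; 6 and more hexagons -/
def f777L : List Tr :=
  [(13, 14, 15), (9, 10, 12), (7, 9, 10), (7, 8, 10), (8, 10, 11), (10, 11, 12), (2, 8, 11), (3,
   7, 8), (2, 3, 8), (1, 2, 11), (1, 11, 12), (0, 1, 12), (0, 9, 12), (1, 2, 23), (2, 3, 23),
   (6, 7, 9), (0, 6, 9), (0, 1, 22), (1, 22, 23), (3, 4, 7), (4, 6, 7), (0, 5, 6), (0, 5, 22),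
   (4, 5, 6), (3, 4, 13), (3, 13, 23), (4, 13, 15), (4, 5, 15), (5, 15, 16), (5, 21, 22), (5,
   16, 21), (20, 22, 23), (13, 20, 23), (19, 20, 22), (19, 21, 22), (17, 19, 21), (16, 17, 21),
   (13, 18, 20), (18, 19, 20), (17, 18, 19), (13, 14, 18), (14, 17, 18), (14, 16, 17), (14, 15,
   16)]

theorem f777_ck : ckF 24 f777L (List.replicate 15 5 ++ List.replicate 6 6 ++ [7, 7, 7]) = true := by
  decide +kernel

theorem f777 (k : ℕ) : Good (([7, 7, 7] : List ℕ) : Multiset ℕ) (6 + k) := good_fam f777_ck k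

end Pool.Agent.Helper79.HI
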