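import Pool.Agent.Helper79.HI.Check2

/-!
# Closed families and cores
-/

namespace Pool.Agent.Helper79.HI

open Finset Pool.Agent.Helper79.HX Pool.Agent.Helper79.HG Pool.Agent.Helper79.HH

/-- large faces 7, 7, 8; 6 and more hexagons -/
def f778L : List Tr :=
  [(0, 1, 13), (15, 21, 24), (14, 15, 24), (14, 23, 24), (22, 23, 24), (21, 22, 24), (20, 22,
   23), (14, 16, 23), (16, 20, 23), (19, 20, 22), (19, 21, 22), (17, 19, 21), (15, 17, 21), (18,
   19, 20), (16, 18, 20), (17, 18, 19), (5, 16, 18), (5, 17, 18), (4, 15, 17), (4, 5, 17), (0,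
   14, 16), (0, 5, 16), (3, 14, 15), (3, 4, 15), (4, 5, 6), (0, 5, 6), (4, 6, 7), (3, 4, 7), (0,
   13, 14), (3, 13, 14), (2, 3, 13), (3, 7, 8), (2, 3, 8), (0, 6, 9), (6, 7, 9), (7, 9, 10), (7,
   8, 10), (8, 10, 11), (2, 8, 11), (0, 9, 12), (9, 10, 12), (10, 11, 12), (0, 1, 12), (1, 11,
   12), (1, 2, 11), (1, 2, 13)]

theorem f778_ck : ckF 25 f778L (List.replicate 16 5 ++ List.replicate 6 6 ++ [7, 7, 8]) = true := by
  decide +kernel

theorem f778 (k : ℕ) : Good (([7, 7, 8] : List ℕ) : Multiset ℕ) (6 + k) := good_fam f778_ck k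

/-- large faces 7, 8, 8; 6 and more hexagons -/
def f788L : List Tr :=
  [(2, 8, 11), (17, 22, 25), (14, 17, 25), (14, 24, 25), (23, 24, 25), (22, 23, 25), (21, 23,
   24), (14, 16, 24), (16, 21, 24), (20, 21, 23), (20, 22, 23), (18, 20, 22), (17, 18, 22), (19,
   20, 21), (16, 19, 21), (18, 19, 20), (15, 16, 19), (15, 18, 19), (15, 17, 18), (3, 15, 17),
   (3, 14, 17), (13, 14, 16), (13, 15, 16), (3, 13, 15), (2, 3, 14), (2, 13, 14), (3, 4, 13),
   (2, 4, 13), (2, 3, 8), (3, 4, 7), (3, 7, 8), (7, 8, 10), (7, 9, 10), (4, 6, 7), (6, 7, 9),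
   (2, 4, 5), (4, 5, 6), (0, 5, 6), (0, 6, 9), (0, 9, 12), (9, 10, 12), (1, 2, 5), (0, 1, 5),
   (0, 1, 12), (1, 2, 11), (1, 11, 12), (10, 11, 12), (8, 10, 11)]

theorem f788_ck : ckF 26 f788L (List.replicate 17 5 ++ List.replicate 6 6 ++ [7, 8, 8]) = true := by
  decide +kernel

theorem f788 (k : ℕ) : Good (([7, 8, 8] : List ℕ) : Multiset ℕ) (6 + k) := good_fam f788_ck k

/-- large faces 8, 8, 8; 6 and more hexagons -/
def f888L : List Tr :=
  [(13, 14, 15), (8, 10, 11), (7, 8, 10), (7, 9, 10), (9, 10, 12), (10, 11, 12), (0, 9, 12), (6,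
   7, 9), (0, 6, 9), (0, 1, 12), (1, 11, 12), (1, 2, 11), (2, 8, 11), (0, 1, 5), (0, 5, 6), (3,
   7, 8), (2, 3, 8), (1, 2, 26), (1, 5, 26), (2, 3, 26), (3, 4, 7), (4, 6, 7), (4, 5, 6), (4, 5,
   25), (5, 25, 26), (3, 4, 24), (4, 24, 25), (3, 13, 26), (13, 25, 26), (3, 13, 23), (3, 23,
   24), (13, 15, 25), (15, 24, 25), (15, 16, 24), (16, 21, 24), (22, 23, 24), (21, 22, 24), (13,
   20, 23), (20, 22, 23), (19, 20, 22), (19, 21, 22), (17, 19, 21), (16, 17, 21), (13, 18, 20),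
   (18, 19, 20), (17, 18, 19), (13, 14, 18), (14, 17, 18), (14, 16, 17), (14, 15, 16)]

theorem f888_ck : ckF 27 f888L (List.replicate 18 5 ++ List.replicate 6 6 ++ [8, 8, 8]) = true := by
  decide +kernel

theorem f888 (k : ℕ) : Good (([8, 8, 8] : List ℕ) : Multiset ℕ) (6 + k) := good_fam f888_ck k

/-- large faces 7, 7, 9; 6 and more hexagons -/
def f779L : List Tr :=
  [(2, 8, 11), (17, 22, 25), (15, 17, 25), (15, 24, 25), (23, 24, 25), (22, 23, 25), (21, 23,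
   24), (14, 15, 24), (14, 21, 24), (20, 21, 23), (20, 22, 23), (18, 20, 22), (17, 18, 22), (19,
   20, 21), (14, 19, 21), (18, 19, 20), (14, 16, 19), (16, 18, 19), (16, 17, 18), (13, 16, 17),
   (13, 15, 17), (2, 14, 16), (2, 13, 16), (3, 14, 15), (3, 13, 15), (2, 3, 14), (2, 4, 13), (3,
   4, 13), (2, 3, 8), (3, 4, 7), (3, 7, 8), (7, 8, 10), (7, 9, 10), (4, 6, 7), (6, 7, 9), (2, 4,
   5), (4, 5, 6), (0, 5, 6), (0, 6, 9), (0, 9, 12), (9, 10, 12), (1, 2, 5), (0, 1, 5), (0, 1,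
   12), (1, 2, 11), (1, 11, 12), (10, 11, 12), (8, 10, 11)]

theorem f779_ck : ckF 26 f779L (List.replicate 17 5 ++ List.replicate 6 6 ++ [7, 7, 9]) = true := by
  decide +kernel

theorem f779 (k : ℕ) : Good (([7, 7, 9] : List ℕ) : Multiset ℕ) (6 + k) := good_fam f779_ck k

/-- large faces 7, 7, 7, 7; 6 and more hexagons -/
def f7777L : List Tr :=
  [(13, 14, 15), (1, 2, 25), (2, 3, 25), (2, 3, 8), (2, 8, 11), (1, 2, 11), (8, 10, 11), (3, 7,
   8), (7, 8, 10), (10, 11, 12), (1, 11, 12), (0, 1, 12), (0, 1, 25), (9, 10, 12), (7, 9, 10),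
   (0, 9, 12), (6, 7, 9), (0, 6, 9), (0, 5, 25), (0, 5, 6), (3, 4, 7), (4, 6, 7), (4, 5, 6), (3,
   23, 25), (3, 4, 23), (5, 13, 25), (13, 23, 25), (4, 5, 24), (4, 22, 23), (4, 22, 24), (5, 13,
   15), (5, 15, 24), (15, 16, 24), (21, 22, 24), (16, 21, 24), (13, 20, 23), (20, 22, 23), (19,
   20, 22), (19, 21, 22), (17, 19, 21), (16, 17, 21), (13, 18, 20), (18, 19, 20), (17, 18, 19),
   (13, 14, 18), (14, 17, 18), (14, 16, 17), (14, 15, 16)]

theorem f7777_ck : ckF 26 f7777L (List.replicate 16 5 ++ List.replicate 6 6 ++ [7, 7, 7, 7]) = true := by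
  decide +kernel

theorem f7777 (k : ℕ) : Good (([7, 7, 7, 7] : List ℕ) : Multiset ℕ) (6 + k) := good_fam f7777_ck k

end Pool.Agent.Helper79.HI
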