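import Pool.Agent.Helper79.HI.Check2

/-!
# Closed families and cores
-/

namespace Pool.Agent.Helper79.HI

open Finset Pool.Agent.Helper79.HX Pool.Agent.Helper79.HG Pool.Agent.Helper79.HH

/-- core: 5, inner faces 7; 1 hexagons -/
def k3L : List Tr :=
  [(0, 1, 2), (3, 8, 11), (1, 3, 11), (1, 10, 11), (9, 10, 11), (8, 9, 11), (7, 9, 10), (1, 2,
   10), (2, 7, 10), (6, 7, 9), (6, 8, 9), (4, 6, 8), (3, 4, 8), (5, 6, 7), (2, 5, 7), (4, 5, 6),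
   (0, 2, 5), (0, 4, 5), (0, 3, 4), (0, 1, 3)]

theorem k3_ck : ckC 12 k3L 5 5 5 9 1 [7] = true := by
  decide +kernel

theorem k3 : CoreG 5 (([7] : List ℕ) : Multiset ℕ) 1 := core_lit k3_ck

/-- core: 5, inner faces 8; 1 hexagons -/
def k4L : List Tr :=
  [(0, 1, 2), (2, 9, 12), (0, 2, 12), (0, 11, 12), (10, 11, 12), (9, 10, 12), (8, 10, 11), (0,
   3, 11), (3, 8, 11), (7, 8, 10), (7, 9, 10), (5, 7, 9), (2, 5, 9), (6, 7, 8), (3, 6, 8), (5,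
   6, 7), (3, 4, 6), (4, 5, 6), (2, 4, 5), (1, 2, 4), (1, 3, 4), (0, 1, 3)]

theorem k4_ck : ckC 13 k4L 5 4 6 10 1 [8] = true := by
  decide +kernel

theorem k4 : CoreG 5 (([8] : List ℕ) : Multiset ℕ) 1 := core_lit k4_ck

/-- core: 4, inner faces 7; 4 hexagons -/
def k5L : List Tr :=
  [(0, 1, 2), (3, 10, 13), (3, 6, 13), (6, 12, 13), (11, 12, 13), (10, 11, 13), (9, 11, 12), (5,
   6, 12), (5, 9, 12), (8, 9, 11), (8, 10, 11), (4, 8, 10), (3, 4, 10), (7, 8, 9), (5, 7, 9),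
   (4, 7, 8), (2, 5, 7), (2, 4, 7), (1, 2, 5), (1, 5, 6), (1, 3, 6), (0, 2, 4), (0, 3, 4), (0,
   1, 3)]

theorem k5_ck : ckC 14 k5L 4 5 5 8 4 [7] = true := by
  decide +kernel

theorem k5 : CoreG 4 (([7] : List ℕ) : Multiset ℕ) 4 := core_lit k5_ck

/-- core: 4, inner faces 7, 7; 1 hexagons -/
def k6L : List Tr :=
  [(0, 1, 2), (1, 9, 12), (1, 2, 12), (2, 11, 12), (10, 11, 12), (9, 10, 12), (8, 10, 11), (2,
   3, 11), (3, 8, 11), (7, 8, 10), (7, 9, 10), (5, 7, 9), (1, 5, 9), (6, 7, 8), (3, 6, 8), (5,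
   6, 7), (3, 4, 6), (4, 5, 6), (1, 4, 5), (0, 1, 4), (0, 3, 4), (0, 2, 3)]

theorem k6_ck : ckC 13 k6L 4 6 5 9 1 [7, 7] = true := by
  decide +kernel

theorem k6 : CoreG 4 (([7, 7] : List ℕ) : Multiset ℕ) 1 := core_lit k6_ck

/-- large faces 10; 8 and more hexagons -/
def fAL : List Tr :=
  [(0, 1, 5), (13, 21, 24), (1, 13, 24), (1, 23, 24), (22, 23, 24), (21, 22, 24), (20, 22, 23),
   (1, 18, 23), (18, 20, 23), (19, 20, 22), (19, 21, 22), (14, 19, 21), (13, 14, 21), (17, 19,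
   20), (17, 18, 20), (15, 17, 19), (14, 15, 19), (1, 16, 18), (16, 17, 18), (15, 16, 17), (1,
   2, 16), (2, 15, 16), (3, 14, 15), (2, 3, 15), (4, 13, 14), (3, 4, 14), (2, 3, 8), (1, 2, 11),
   (2, 8, 11), (1, 5, 13), (4, 5, 13), (3, 4, 7), (3, 7, 8), (4, 6, 7), (4, 5, 6), (7, 8, 10),
   (8, 10, 11), (7, 9, 10), (6, 7, 9), (1, 11, 12), (10, 11, 12), (9, 10, 12), (0, 1, 12), (0,
   9, 12), (0, 6, 9), (0, 5, 6)]

theorem fA_ck : ckF 25 fAL (List.replicate 16 5 ++ List.replicate 8 6 ++ [10]) = true := by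
  decide +kernel

theorem fA (k : ℕ) : Good (([10] : List ℕ) : Multiset ℕ) (8 + k) := good_fam fA_ck k

/-- large faces 10; 7 hexagons -/
def fA7L : List Tr :=
  [(0, 1, 2), (14, 20, 23), (14, 16, 23), (16, 22, 23), (21, 22, 23), (20, 21, 23), (19, 21,
   22), (0, 16, 22), (0, 19, 22), (18, 19, 21), (18, 20, 21), (15, 18, 20), (14, 15, 20), (17,
   18, 19), (0, 17, 19), (15, 17, 18), (0, 10, 17), (10, 15, 17), (0, 12, 16), (12, 14, 16),
   (13, 14, 15), (10, 13, 15), (12, 13, 14), (11, 12, 13), (9, 10, 13), (9, 11, 13), (0, 2, 12),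
   (2, 11, 12), (2, 3, 11), (8, 9, 11), (3, 8, 11), (0, 7, 10), (7, 9, 10), (6, 7, 9), (6, 8,
   9), (4, 6, 8), (3, 4, 8), (0, 5, 7), (5, 6, 7), (4, 5, 6), (0, 1, 5), (1, 4, 5), (1, 3, 4),
   (1, 2, 3)]

theorem fA7_ck : (chk 24 fA7L && ((List.range 24).map (dg fA7L)).isPerm
    (List.replicate 16 5 ++ List.replicate 7 6 ++ [10])) = true := by
  decide +kernel

theorem fA7 : Good (([10] : List ℕ) : Multiset ℕ) 7 := good_lit fA7_ck

/-- large faces 11; 8 and more hexagons -/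
def fBL : List Tr :=
  [(2, 8, 11), (15, 22, 25), (15, 18, 25), (18, 24, 25), (23, 24, 25), (22, 23, 25), (21, 23,
   24), (17, 18, 24), (17, 21, 24), (20, 21, 23), (20, 22, 23), (16, 20, 22), (15, 16, 22), (19,
   20, 21), (17, 19, 21), (16, 19, 20), (2, 17, 19), (2, 16, 19), (14, 17, 18), (14, 15, 18),
   (2, 14, 17), (13, 15, 16), (2, 13, 16), (13, 14, 15), (2, 3, 14), (3, 13, 14), (2, 4, 13),
   (3, 4, 13), (2, 3, 8), (3, 4, 7), (3, 7, 8), (7, 8, 10), (7, 9, 10), (4, 6, 7), (6, 7, 9),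
   (2, 4, 5), (4, 5, 6), (0, 5, 6), (0, 6, 9), (0, 9, 12), (9, 10, 12), (1, 2, 5), (0, 1, 5),
   (0, 1, 12), (1, 2, 11), (1, 11, 12), (10, 11, 12), (8, 10, 11)]

theorem fB_ck : ckF 26 fBL (List.replicate 17 5 ++ List.replicate 8 6 ++ [11]) = true := by
  decide +kernel

theorem fB (k : ℕ) : Good (([11] : List ℕ) : Multiset ℕ) (8 + k) := good_fam fB_ck k

/-- no large face; 6 and more hexagons -/
def f0L : List Tr :=
  [(5, 13, 14), (2, 8, 11), (1, 2, 11), (1, 11, 12), (10, 11, 12), (8, 10, 11), (9, 10, 12), (0,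
   1, 12), (0, 9, 12), (7, 9, 10), (7, 8, 10), (3, 7, 8), (2, 3, 8), (6, 7, 9), (0, 6, 9), (4,
   6, 7), (3, 4, 7), (0, 5, 6), (4, 5, 6), (0, 5, 14), (0, 1, 14), (1, 2, 15), (1, 14, 15), (2,
   3, 16), (2, 15, 16), (3, 4, 17), (4, 5, 17), (3, 16, 17), (5, 13, 17), (13, 16, 17), (13, 15,
   16), (13, 14, 15)]

theorem f0_ck : ckF 18 f0L (List.replicate 12 5 ++ List.replicate 6 6 ++ []) = true := by
  decide +kernel

theorem f0 (k : ℕ) : Good (([] : List ℕ) : Multiset ℕ) (6 + k) := good_fam f0_ck k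

end Pool.Agent.Helper79.HI
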