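import Pool.Agent.Helper79.HG.C1
import Pool.Agent.Helper79.HI.Fam0
import Pool.Agent.Helper79.HI.Fam1
import Pool.Agent.Helper79.HI.Fam2
import Pool.Agent.Helper79.HI.Fam3

/-!
# Six hexagons are enough
-/

namespace Pool.Agent.Helper79.HI

open Finset Pool.Agent.Helper79.HX Pool.Agent.Helper79.HG Pool.Agent.Helper79.HH

/-- two end pieces without large faces at different faces -/
theorem two_big {D1 D2 n : ℕ} {L : Multiset ℕ} (h1 : 9 ≤ D1) (h2 : 9 ≤ D2)
    (hL : ∀ c ∈ L, 6 ≤ c) (hn : 6 ≤ n) : Good (D1 ::ₘ D2 ::ₘ L) n := by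
  refine (two (k := n - 6) (c1_core 3 le_rfl) (c1_core 3 le_rfl) (by omega) h1 h2 hL).congr ?_
    (by omega)
  simp

theorem one_seven {c n : ℕ} (hc : 11 ≤ c) (hn : 6 ≤ n) : Good {c, 7} n :=
  (one k3 (c1_core (n - 1) (by omega)) (by omega) hc).congr (by simp) (by omega)

theorem one_eight {c n : ℕ} (hc : 11 ≤ c) (hn : 6 ≤ n) : Good {c, 8} n :=
  (one k4 (c1_core (n - 1) (by omega)) (by omega) hc).congr (by simp) (by omega)

theorem one_none {c n : ℕ} (hc : 12 ≤ c) (hn : 6 ≤ n) : Good {c} n :=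
  (one (c1_core 3 le_rfl) (c1_core (n - 3) (by omega)) (by omega) hc).congr (by simp) (by omega)

theorem one_sevens {c n : ℕ} (hc : 10 ≤ c) (hn : 6 ≤ n) : Good {c, 7, 7} n :=
  (one k6 (c1_core (n - 1) (by omega)) (by omega) hc).congr (by simp; rfl) (by omega)

/-- one large face of size at least nine -/
theorem case_one_big {c s e n : ℕ} (hc : 9 ≤ c) (hn : 6 ≤ n)
    (hA : ¬ (s = 0 ∧ e = 0 ∧ (c = 10 ∨ c = 11))) :
    Good (c ::ₘ (Multiset.replicate s 7 + Multiset.replicate e 8)) n := by
  have h7 : ∀ a ∈ (([7] : List ℕ) : Multiset ℕ), 6 ≤ a := by decide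
  rcases Nat.eq_zero_or_pos e with rfl | he
  · rcases (by omega : s = 0 ∨ s = 1 ∨ s = 2 ∨ 3 ≤ s) with rfl | rfl | rfl | hs
    · rcases (by omega : c = 9 ∨ 12 ≤ c) with rfl | h
      · exact (f9 (n - 6)).congr (by decide) (by omega)
      · exact (one_none h hn).congr (by simp) rfl
    · rcases (by omega : c = 9 ∨ c = 10 ∨ 11 ≤ c) with rfl | rfl | h
      · exact (f79 (n - 6)).congr (by decide) (by omega)
      · exact (f7A (n - 6)).congr (by decide) (by omega)
      · exact (one_seven h hn).congr (by simp) rfl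
    · rcases (by omega : c = 9 ∨ 10 ≤ c) with rfl | h
      · exact (f779 (n - 6)).congr (by decide) (by omega)
      · exact (one_sevens h hn).congr (by simp [Multiset.replicate_succ]) rfl
    · obtain ⟨t, rfl⟩ : ∃ t, s = t + 3 := ⟨s - 3, by omega⟩
      refine (two (k := n - 4) (L := Multiset.replicate t 7) (D1 := c) (D2 := 7)
        (c1_core 3 le_rfl) k6 (by omega) hc (by omega) ?_).congr ?_ (by omega)
      · intro a ha
        rw [Multiset.eq_of_mem_replicate ha]; omega
      · ext j
        simp only [← Multiset.cons_coe, Multiset.coe_nil, Multiset.count_add, Multiset.count_cons,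
          Multiset.count_zero, Multiset.count_replicate]
        split_ifs <;> omega
  · obtain ⟨e', rfl⟩ : ∃ t, e = t + 1 := ⟨e - 1, by omega⟩
    rcases Nat.eq_zero_or_pos s with rfl | hs
    · rcases Nat.eq_zero_or_pos e' with rfl | he'
      · rcases (by omega : c = 9 ∨ c = 10 ∨ 11 ≤ c) with rfl | rfl | h
        · exact (f89 (n - 6)).congr (by decide) (by omega)
        · exact (f8A (n - 6)).congr (by decide) (by omega)
        · exact (one_eight h hn).congr (by simp) rfl
      · obtain ⟨t, rfl⟩ : ∃ t, e' = t + 1 := ⟨e' - 1, by omega⟩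
        refine (two (k := n - 4) (L := Multiset.replicate t 8) (D1 := c) (D2 := 8)
          (c1_core 3 le_rfl) k4 (by omega) hc (by omega) ?_).congr ?_ (by omega)
        · intro a ha
          rw [Multiset.eq_of_mem_replicate ha]; omega
        · ext j
          simp only [← Multiset.cons_coe, Multiset.coe_nil, Multiset.count_add,
            Multiset.count_cons, Multiset.count_zero, Multiset.count_replicate]
          split_ifs <;> omega
    · obtain ⟨t, rfl⟩ : ∃ t, s = t + 1 := ⟨s - 1, by omega⟩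
      refine (two (k := n - 4) (L := Multiset.replicate t 7 + Multiset.replicate e' 8) (D1 := c)
        (D2 := 8) (c1_core 3 le_rfl) k3 (by omega) hc (by omega) ?_).congr ?_ (by omega)
      · intro a ha
        rcases Multiset.mem_add.1 ha with h | h <;> rw [Multiset.eq_of_mem_replicate h] <;> omega
      · ext j
        simp only [← Multiset.cons_coe, Multiset.coe_nil, Multiset.count_add, Multiset.count_cons,
          Multiset.count_zero, Multiset.count_replicate]
        split_ifs <;> omega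

/-- only faces of size seven and eight -/
theorem case_small {s e n : ℕ} (hn : 6 ≤ n) :
    Good (Multiset.replicate s 7 + Multiset.replicate e 8) n := by
  have hmem : ∀ t t' : ℕ, ∀ a ∈ Multiset.replicate t 7 + Multiset.replicate t' 8, 6 ≤ a := by
    intro t t' a ha
    rcases Multiset.mem_add.1 ha with h | h <;> rw [Multiset.eq_of_mem_replicate h] <;> omega
  rcases (by omega : (s = 0 ∧ e = 0) ∨ (s = 1 ∧ e = 0) ∨ (s = 0 ∧ e = 1) ∨ (s = 2 ∧ e = 0) ∨
    (s = 1 ∧ e = 1) ∨ (s = 0 ∧ e = 2) ∨ (s = 3 ∧ e = 0) ∨ (s = 2 ∧ e = 1) ∨ (s = 1 ∧ e = 2) ∨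
    (s = 0 ∧ e = 3) ∨ (s = 4 ∧ e = 0) ∨ (2 ≤ s ∧ 2 ≤ e) ∨ (s = 1 ∧ 3 ≤ e) ∨ (s = 0 ∧ 4 ≤ e) ∨
    (3 ≤ s ∧ e = 1) ∨ (5 ≤ s ∧ e = 0)) with
    ⟨rfl, rfl⟩ | ⟨rfl, rfl⟩ | ⟨rfl, rfl⟩ | ⟨rfl, rfl⟩ | ⟨rfl, rfl⟩ | ⟨rfl, rfl⟩ | ⟨rfl, rfl⟩ |
    ⟨rfl, rfl⟩ | ⟨rfl, rfl⟩ | ⟨rfl, rfl⟩ | ⟨rfl, rfl⟩ | ⟨hs, he⟩ | ⟨rfl, he⟩ | ⟨rfl, he⟩ |
    ⟨hs, rfl⟩ | ⟨hs, rfl⟩
  · exact (f0 (n - 6)).congr (by decide) (by omega)
  · exact (f7 (n - 6)).congr (by decide) (by omega)
  · exact (f8 (n - 6)).congr (by decide) (by omega)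
  · exact (f77 (n - 6)).congr (by decide) (by omega)
  · exact (f78 (n - 6)).congr (by decide) (by omega)
  · exact (f88 (n - 6)).congr (by decide) (by omega)
  · exact (f777 (n - 6)).congr (by decide) (by omega)
  · exact (f778 (n - 6)).congr (by decide) (by omega)
  · exact (f788 (n - 6)).congr (by decide) (by omega)
  · exact (f888 (n - 6)).congr (by decide) (by omega)
  · exact (f7777 (n - 6)).congr (by decide) (by omega)
  · refine (two (k := n - 2) (D1 := 8) (D2 := 8) k3 k3 (by omega) (by omega) (by omega)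
      (hmem (s - 2) (e - 2))).congr ?_ (by omega)
    obtain ⟨t, rfl⟩ : ∃ t, s = t + 2 := ⟨s - 2, by omega⟩
    obtain ⟨t', rfl⟩ : ∃ t, e = t + 2 := ⟨e - 2, by omega⟩
    ext j
    simp only [← Multiset.cons_coe, Multiset.coe_nil, Multiset.count_add, Multiset.count_cons,
      Multiset.count_zero, Multiset.count_replicate]
    split_ifs <;> omega
  · refine (two (k := n - 2) (D1 := 8) (D2 := 8) k3 k4 (by omega) (by omega) (by omega)
      (hmem 0 (e - 3))).congr ?_ (by omega)
    obtain ⟨t', rfl⟩ : ∃ t, e = t + 3 := ⟨e - 3, by omega⟩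
    ext j
    simp only [← Multiset.cons_coe, Multiset.coe_nil, Multiset.count_add, Multiset.count_cons,
      Multiset.count_zero, Multiset.count_replicate]
    split_ifs <;> omega
  · refine (two (k := n - 2) (D1 := 8) (D2 := 8) k4 k4 (by omega) (by omega) (by omega)
      (hmem 0 (e - 4))).congr ?_ (by omega)
    obtain ⟨t', rfl⟩ : ∃ t, e = t + 4 := ⟨e - 4, by omega⟩
    ext j
    simp only [← Multiset.cons_coe, Multiset.coe_nil, Multiset.count_add, Multiset.count_cons,
      Multiset.count_zero, Multiset.count_replicate]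
    split_ifs <;> omega
  · refine (two (k := n - 5) (D1 := 8) (D2 := 7) k3 k5 (by omega) (by omega) (by omega)
      (hmem (s - 3) 0)).congr ?_ (by omega)
    obtain ⟨t, rfl⟩ : ∃ t, s = t + 3 := ⟨s - 3, by omega⟩
    ext j
    simp only [← Multiset.cons_coe, Multiset.coe_nil, Multiset.count_add, Multiset.count_cons,
      Multiset.count_zero, Multiset.count_replicate]
    split_ifs <;> omega
  · refine (two (k := n - 5) (D1 := 7) (D2 := 7) k6 k5 (by omega) (by omega) (by omega)
      (hmem (s - 5) 0)).congr ?_ (by omega)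
    obtain ⟨t, rfl⟩ : ∃ t, s = t + 5 := ⟨s - 5, by omega⟩
    ext j
    simp only [← Multiset.cons_coe, Multiset.coe_nil, Multiset.count_add, Multiset.count_cons,
      Multiset.count_zero, Multiset.count_replicate]
    split_ifs <;> omega

/-- Every number `n ≥ 6` of hexagons, for every multiset of large faces except `{10}`, `{11}`. -/
theorem six {X : Multiset ℕ} (h7 : ∀ a ∈ X, 7 ≤ a) (h10 : X ≠ {10}) (h11 : X ≠ {11}) {n : ℕ}
    (hn : 6 ≤ n) : Good X n := by
  set B := X.filter (fun a => 9 ≤ a) with hB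
  have hX : X = B + (Multiset.replicate (X.count 7) 7 + Multiset.replicate (X.count 8) 8) := by
    ext j
    simp only [hB, Multiset.count_add, Multiset.count_replicate, Multiset.count_filter]
    by_cases hj : j ∈ X
    · have := h7 j hj
      rcases (by omega : j = 7 ∨ j = 8 ∨ 9 ≤ j) with rfl | rfl | h
      · simp
      · simp
      · rw [if_pos h, if_neg (by omega), if_neg (by omega)]; rfl
    · rw [Multiset.count_eq_zero_of_notMem hj]
      split_ifs with k1 k2 k3 k2 k3 <;> first | rfl | (subst_vars; simp_all)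
  have hB9 : ∀ a ∈ B, 9 ≤ a := fun a ha => (Multiset.mem_filter.1 ha).2
  clear_value B
  rw [hX] at h10 h11 ⊢
  generalize X.count 7 = s at *
  generalize X.count 8 = e at *
  clear hX hB h7
  induction B using Multiset.induction_on with
  | empty =>
    rw [zero_add]
    exact case_small hn
  | cons c B _ =>
    induction B using Multiset.induction_on with
    | empty =>
      rw [Multiset.cons_add, zero_add]
      refine case_one_big (hB9 c (by simp)) hn ?_
      rintro ⟨rfl, rfl, rfl | rfl⟩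
      · exact h10 (by simp)
      · exact h11 (by simp)
    | cons d B _ =>
      rw [Multiset.cons_add, Multiset.cons_add]
      refine two_big (hB9 c (by simp)) (hB9 d (by simp)) ?_ hn
      intro a ha
      rcases Multiset.mem_add.1 ha with h | h
      · have := hB9 a (by simp [h]); omega
      · rcases Multiset.mem_add.1 h with h | h <;> rw [Multiset.eq_of_mem_replicate h] <;> omega

/-- one face of size ten -/
theorem ten {n : ℕ} (hn : 7 ≤ n) : Good {10} n := by
  rcases (by omega : n = 7 ∨ 8 ≤ n) with rfl | h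
  · exact fA7.congr (by decide) rfl
  · exact (fA (n - 8)).congr (by decide) (by omega)

/-- one face of size eleven -/
theorem eleven {n : ℕ} (hn : 8 ≤ n) : Good {11} n :=
  (fB (n - 8)).congr (by decide) (by omega)

end Pool.Agent.Helper79.HI
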