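import Pool.Agent.Helper79.HH.Check

/-!
# A fast checker for the closed families
-/

namespace Pool.Agent.Helper79.HI

open Finset Pool.Agent.Helper79.HX Pool.Agent.Helper79.HG Pool.Agent.Helper79.HH

/-- the triangles of the cap, sorted -/
def capT : List Tr :=
  [(0, 9, 12), (0, 1, 12), (1, 11, 12), (10, 11, 12), (9, 10, 12), (8, 10, 11), (1, 2, 11), (2,
   8, 11), (7, 8, 10), (7, 9, 10), (6, 7, 9), (0, 6, 9), (2, 3, 8), (3, 7, 8), (3, 4, 7), (4, 6,
   7), (0, 5, 6), (4, 5, 6)]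

def trEq (x y : Tr) : Bool := Nat.beq x.1 y.1 && Nat.beq x.2.1 y.2.1 && Nat.beq x.2.2 y.2.2

theorem trEq_eq {x y : Tr} (h : trEq x y = true) : x = y := by
  obtain ⟨a, b, c⟩ := x
  obtain ⟨d, e, f⟩ := y
  simp only [trEq, Bool.and_eq_true] at h
  obtain ⟨⟨h1, h2⟩, h3⟩ := h
  rw [Nat.eq_of_beq_eq_true h1, Nat.eq_of_beq_eq_true h2, Nat.eq_of_beq_eq_true h3]

theorem cap_eq : cap1 = TT capT := by
  decide

def capB (L : List Tr) : Bool := capT.all (fun x => L.any (trEq x))

theorem capB_sub {L : List Tr} (h : capB L = true) : cap1 ⊆ TT L := by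
  intro t ht
  rw [cap_eq] at ht
  obtain ⟨x, hx, rfl⟩ := mem_TT.1 ht
  rw [capB, List.all_eq_true] at h
  have := h x hx
  rw [List.any_eq_true] at this
  obtain ⟨y, hy, hxy⟩ := this
  rw [trEq_eq hxy]
  exact mem_TT.2 ⟨y, hy, rfl⟩

theorem verts_map {N : ℕ} {L : List Tr} (hc : chk N L = true) :
    (verts (TT L)).val.map (deg (TT L)) = (((List.range N).map (dg L) : List ℕ) : Multiset ℕ) := by
  have hB := chk_bas hc
  rw [chk_verts hc, Finset.range_val]
  have e2 : Multiset.range N = (List.range N : Multiset ℕ) := rfl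
  rw [e2, Multiset.map_coe]
  congr 1
  apply List.map_congr_left
  intro v _
  exact deg_TT hB v

/-- a closed sphere with given degrees -/
theorem fin_lit {N : ℕ} {L : List Tr} {M : List ℕ}
    (h : (chk N L && ((List.range N).map (dg L)).isPerm M) = true) : Fin' (M : Multiset ℕ) := by
  rw [Bool.and_eq_true, List.isPerm_iff] at h
  refine ⟨TT L, chk_sphere h.1, ?_⟩
  rw [verts_map h.1]
  exact Multiset.coe_eq_coe.2 h.2

/-- the conditions for a growing family -/
def ckF (N : ℕ) (L : List Tr) (M : List ℕ) : Bool :=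
  chk N L && capB L &&
    (Nat.beq (dg L 6) 5 && Nat.beq (dg L 7) 6 && Nat.beq (dg L 8) 5 && Nat.beq (dg L 9) 5 &&
      Nat.beq (dg L 10) 5 && Nat.beq (dg L 11) 5 && Nat.beq (dg L 12) 5) &&
    ((List.range N).map (dg L)).isPerm M

theorem fam_lit {N : ℕ} {L : List Tr} {M : List ℕ} (h : ckF N L M = true) (k : ℕ) :
    Fin' ((M : Multiset ℕ) + Multiset.replicate k 6) := by
  simp only [ckF, Bool.and_eq_true, List.isPerm_iff] at h
  obtain ⟨⟨⟨h1, h2⟩, ⟨⟨⟨⟨⟨⟨k6, k7⟩, k8⟩, k9⟩, k10⟩, k11⟩, k12⟩⟩, h4⟩ := h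
  have hB := chk_bas h1
  have k6 := Nat.eq_of_beq_eq_true k6
  have k7 := Nat.eq_of_beq_eq_true k7
  have k8 := Nat.eq_of_beq_eq_true k8
  have k9 := Nat.eq_of_beq_eq_true k9
  have k10 := Nat.eq_of_beq_eq_true k10
  have k11 := Nat.eq_of_beq_eq_true k11
  have k12 := Nat.eq_of_beq_eq_true k12
  have hg : Grow0 (dg L 0) (dg L 1) (dg L 2) (dg L 3) (dg L 4) (dg L 5)
      ((verts (TT L) \ range 13).val.map (deg (TT L))) := by
    refine ⟨TT L, chk_sphere h1, capB_sub h2, deg_TT hB 0, deg_TT hB 1, deg_TT hB 2, deg_TT hB 3,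
      deg_TT hB 4, deg_TT hB 5, ?_, rfl⟩
    intro i hi
    rw [deg_TT hB]
    have hinn : ∀ i ∈ inn, deg cap1 i = if i = 7 then 6 else 5 := by decide
    rw [hinn i hi]
    simp only [inn, Finset.mem_insert, Finset.mem_singleton] at hi
    rcases hi with rfl | rfl | rfl | rfl | rfl | rfl | rfl
    · exact k6
    · exact k7
    · exact k8
    · exact k9
    · exact k10
    · exact k11
    · exact k12
  refine (hg.fin k).congr ?_
  intro j
  have e1 : (verts (TT L)).val.map (deg (TT L)) = (M : Multiset ℕ) := by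
    rw [verts_map h1]
    exact Multiset.coe_eq_coe.2 h4
  have hr : range 13 ⊆ verts (TT L) := by
    intro v hv
    rw [← cap_verts] at hv
    obtain ⟨t, ht, hv⟩ := mem_verts.1 hv
    exact mem_verts.2 ⟨t, capB_sub h2 ht, hv⟩
  have hV : (verts (TT L)).val = (range 13).val + (verts (TT L) \ range 13).val := by
    rw [Finset.sdiff_val, add_tsub_cancel_of_le (Finset.val_le_iff.2 hr)]
  have h13 : (range 13).val.map (deg (TT L)) =
      {dg L 0, dg L 1, dg L 2, dg L 3, dg L 4, dg L 5} + {5, 6, 5, 5, 5, 5, 5} := by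
    have e2 : (range 13).val = (([0, 1, 2, 3, 4, 5, 6, 7, 8, 9, 10, 11, 12] : List ℕ) :
        Multiset ℕ) := by decide
    rw [e2, Multiset.map_coe]
    simp only [List.map_cons, List.map_nil, deg_TT hB, k6, k7, k8, k9, k10, k11, k12]
    rfl
  rw [← e1, hV, Multiset.map_add, h13]
  simp only [Multiset.count_add]
  omega

theorem coe_list (n5 n : ℕ) (X : List ℕ) :
    ((List.replicate n5 5 ++ List.replicate n 6 ++ X : List ℕ) : Multiset ℕ) =
      Multiset.replicate n5 5 + Multiset.replicate n 6 + (X : Multiset ℕ) := by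
  rw [← Multiset.coe_add, ← Multiset.coe_add, Multiset.coe_replicate, Multiset.coe_replicate]

theorem good_fam {N : ℕ} {L : List Tr} {n5 n : ℕ} {X : List ℕ}
    (h : ckF N L (List.replicate n5 5 ++ List.replicate n 6 ++ X) = true) (k : ℕ) :
    Good (X : Multiset ℕ) (n + k) := by
  refine ⟨n5, (fam_lit h k).congr ?_⟩
  intro j
  rw [coe_list, Multiset.replicate_add]
  simp only [Multiset.count_add]
  omega

theorem good_lit {N : ℕ} {L : List Tr} {n5 n : ℕ} {X : List ℕ}
    (h : (chk N L && ((List.range N).map (dg L)).isPerm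
      (List.replicate n5 5 ++ List.replicate n 6 ++ X)) = true) :
    Good (X : Multiset ℕ) n := by
  refine ⟨n5, (fin_lit h).congr ?_⟩
  intro j
  rw [coe_list]

/-- all the conditions for a core -/
def ckC (N : ℕ) (L : List Tr) (g a b p h : ℕ) (A : List ℕ) : Bool :=
  chk N L && mem3 L 0 1 2 && (Nat.beq (dg L 0) g && Nat.beq (dg L 1) a && Nat.beq (dg L 2) b) &&
    ((a + 1) :: (b + 2) :: rst N L [0, 1, 2] []).isPerm
      (List.replicate p 5 ++ List.replicate h 6 ++ A)

theorem core_lit {N : ℕ} {L : List Tr} {g a b p h : ℕ} {A : List ℕ}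
    (hc : ckC N L g a b p h A = true) : CoreG g (A : Multiset ℕ) h := by
  simp only [ckC, Bool.and_eq_true, List.isPerm_iff] at hc
  obtain ⟨⟨⟨h1, h2⟩, ⟨h3, h4⟩, h5⟩, h6⟩ := hc
  have hB := chk_bas h1
  have h3 := Nat.eq_of_beq_eq_true h3
  have h4 := Nat.eq_of_beq_eq_true h4
  have h5 := Nat.eq_of_beq_eq_true h5
  have hR := rst_eq h1 [0, 1, 2] []
  have hfil : ((verts (TT L) \ [0, 1, 2].toFinset).filter
      (fun v => v ∉ ([] : List (ℕ × ℕ)).map Prod.fst)) = verts (TT L) \ {0, 1, 2} := by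
    ext v
    simp
  rw [hfil] at hR
  have hconf : Conf g a b (rst N L [0, 1, 2] [] : Multiset ℕ) :=
    ⟨TT L, 0, 1, 2, chk_sphere h1, by decide, by decide, by decide, mem3_mem hB h2,
      (deg_TT hB 0).trans h3, (deg_TT hB 1).trans h4, (deg_TT hB 2).trans h5, hR⟩
  refine core_of hconf p ?_
  rw [← coe_list, ← Multiset.coe_eq_coe.2 h6]
  rfl

end Pool.Agent.Helper79.HI
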